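import Mathlib

namespace Pool.Agent.H.MP_f18a8d_nt

structure Rec (A B : ℕ → ℕ) : Prop where
  a1 : A 1 = 1
  b1 : B 1 = 1
  rB : ∀ m, 1 ≤ m → 1 ≤ A (m + 1) → A (m + 1) ≤ m + 1 → 1 ≤ B m → B m ≤ m + 1 →
    B (m + 1) = A (m + 2 - A (m + 1)) + A (m + 2 - B m)
  rA : ∀ m, 1 ≤ m → 1 ≤ A m → A m ≤ m → 1 ≤ B m → B m ≤ m →
    A (m + 1) = B (m + 1 - B m) + B (m + 1 - A m) - 1

/-- positive arch on `[u, v]` -/
structure Pos (A B : ℕ → ℕ) (r a u v : ℕ) : Prop where
  hu : u + r + 1 = 2 * a
  hv : v + r + 1 = 4 * a
  ha : r + 1 ≤ a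
  au : A u = a
  av : A v = 2 * a
  sum : ∀ m, u ≤ m → m ≤ v → A m + B m = m + r + 1
  slow : ∀ m, u ≤ m → m < v → A (m + 1) = A m ∨ A (m + 1) = A m + 1
  lt : ∀ m, u < m → m < v → A m < B m

/-- negative arch on `[v, w]` -/
structure Neg (A B : ℕ → ℕ) (r b v w : ℕ) : Prop where
  hv : v + r = b
  hw : w + r + 2 = 2 * b
  hb : r + 3 ≤ b
  eqv : A v = B (v - 1)
  aw : A w = b
  aw1 : A (w + 1) = b
  sum : ∀ m, v ≤ m + 1 → m ≤ w → A (m + 1) + B m = m + r + 2
  slow : ∀ m, v ≤ m → m ≤ w → A (m + 1) = A m ∨ A (m + 1) = A m + 1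
  le : ∀ m, v ≤ m → m ≤ w → B m ≤ A m
  ge : ∀ m, v ≤ m → m ≤ w → b ≤ 2 * B m

theorem mono_of_slow {A : ℕ → ℕ} {u v : ℕ}
    (h : ∀ m, u ≤ m → m < v → A m ≤ A (m + 1)) (i j : ℕ) (hi : u ≤ i) (hij : i ≤ j) (hj : j ≤ v) :
    A i ≤ A j := by
  induction j, hij using Nat.le_induction with
  | base => exact le_rfl
  | succ j hij ih => exact (ih (by omega)).trans (h j (by omega) (by omega))

theorem neg_of_pos {A B : ℕ → ℕ} (R : Rec A B) {r a u v : ℕ} (P : Pos A B r a u v) :
    ∃ w, Neg A B r (4 * a - 1) v w := by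
  obtain ⟨hu, hv, ha, au, av, sum, slow, lt⟩ := P
  have hBmono : ∀ i j, u ≤ i → i ≤ j → j ≤ v → B i ≤ B j := by
    apply mono_of_slow
    intro m h1 h2
    have := sum m h1 h2.le; have := sum (m + 1) (by omega) h2; have := slow m h1 h2
    omega
  have hv1 : B (v - 1) = 2 * a := by
    have h1 := sum (v - 1) (by omega) (by omega)
    have h2 := slow (v - 1) (by omega) (by omega)
    have h3 := lt (v - 1) (by omega) (by omega)
    rw [show v - 1 + 1 = v by omega] at h2
    omega
  have hBv : B v = 2 * a := by have := sum v (by omega) le_rfl; omega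
  have hu1 : B (u + 1) = A (u + 1) + 1 := by
    have h1 := sum (u + 1) (by omega) (by omega)
    have h2 := slow u (by omega) (by omega)
    have h3 := lt (u + 1) (by omega) (by omega)
    omega
  -- machine invariant at time `m + 1`
  let I : ℕ → Prop := fun m => ∃ x y, A (m + 1) = x + r ∧ B m = y + r ∧ x + y + r = m + 2 ∧
    u + 1 ≤ y ∧ y ≤ x ∧ x ≤ v ∧ (B y = A x + 1 ∨ (B y = A x ∧ A x + B (x - 1) = x + r + 1))
  have step : ∀ m, v ≤ m + 1 → m + 3 ≤ 2 * v + r → I m → I (m + 1) ∧
      (A (m + 1 + 1) = A (m + 1) ∨ A (m + 1 + 1) = A (m + 1) + 1) ∧ B (m + 1) ≤ A (m + 1) := by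
    rintro m h1 h2 ⟨x, y, e1, e2, e3, e4, e5, e6, e7⟩
    have r1 := R.rB m (by omega) (by omega) (by omega) (by omega) (by omega)
    rw [show m + 2 - A (m + 1) = y by omega, show m + 2 - B m = x by omega] at r1
    have sy := sum y (by omega) (by omega)
    have sx := sum x (by omega) (by omega)
    rcases e7 with e7 | ⟨e7, e8⟩
    · have hx : x < v := by
        by_contra hc
        have h3 : x = v := by omega
        have := hBmono y v (by omega) (by omega) le_rfl
        rw [h3] at e7
        omega
      have r2 := R.rA (m + 1) (by omega) (by omega) (by omega) (by omega) (by omega)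
      rw [show m + 1 + 1 - B (m + 1) = x by omega, show m + 1 + 1 - A (m + 1) = y by omega] at r2
      refine ⟨⟨x + 1, y, by omega, by omega, by omega, by omega, by omega, by omega, ?_⟩,
        by omega, by omega⟩
      have := slow x (by omega) hx
      rw [show x + 1 - 1 = x by omega]
      omega
    · have hxy : y < x := by
        by_contra hc
        have h3 : y = x := by omega
        have := lt x (by omega) (by omega)
        rw [h3] at e7
        omega
      have r2 := R.rA (m + 1) (by omega) (by omega) (by omega) (by omega) (by omega)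
      rw [show m + 1 + 1 - B (m + 1) = x - 1 by omega,
        show m + 1 + 1 - A (m + 1) = y by omega] at r2
      refine ⟨⟨x, y + 1, by omega, by omega, by omega, by omega, by omega, by omega, ?_⟩,
        by omega, by omega⟩
      have := slow y (by omega) (by omega)
      have := sum (y + 1) (by omega) (by omega)
      omega
  have hI : ∀ m, v - 1 ≤ m → m + 2 ≤ 2 * v + r → I m := by
    intro m h1
    induction m, h1 using Nat.le_induction with
    | base =>
      intro _
      refine ⟨u + 1, u + 1, ?_, by omega, by omega, by omega, by omega, by omega, Or.inl hu1⟩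
      rw [show v - 1 + 1 = v by omega]; omega
    | succ m h1 ih =>
      intro h2
      exact (step m (by omega) (by omega) (ih (by omega))).1
  refine ⟨2 * v + r - 2, ⟨by omega, by omega, by omega, by omega, ?_, ?_, ?_, ?_, ?_, ?_⟩⟩
  · obtain ⟨x, y, e1, e2, e3, e4, e5, e6, e7⟩ := hI (2 * v + r - 3) (by omega) (by omega)
    rw [show 2 * v + r - 3 + 1 = 2 * v + r - 2 by omega] at e1
    omega
  · obtain ⟨x, y, e1, e2, e3, e4, e5, e6, e7⟩ := hI (2 * v + r - 2) (by omega) (by omega)
    omega
  · intro m h1 h2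
    obtain ⟨x, y, e1, e2, e3, e4, e5, e6, e7⟩ := hI m (by omega) (by omega)
    omega
  · intro m h1 h2
    have := (step (m - 1) (by omega) (by omega) (hI _ (by omega) (by omega))).2.1
    rwa [show m - 1 + 1 = m by omega] at this
  · intro m h1 h2
    have := (step (m - 1) (by omega) (by omega) (hI _ (by omega) (by omega))).2.2
    rwa [show m - 1 + 1 = m by omega] at this
  · intro m h1 h2
    obtain ⟨x, y, e1, e2, e3, e4, e5, e6, e7⟩ := hI m (by omega) (by omega)
    omega

theorem pos_of_neg {A B : ℕ → ℕ} (R : Rec A B) {r b v w : ℕ} (N : Neg A B r b v w) :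
    ∃ v', Pos A B (r + 1) b w v' := by
  obtain ⟨hv, hw, hb, eqv, aw, aw1, sum, slow, le, -⟩ := N
  have hAmono : ∀ i j, v ≤ i → i ≤ j → j ≤ w + 1 → A i ≤ A j := by
    apply mono_of_slow
    intro m h1 h2
    have := slow m h1 (by omega)
    omega
  have hBw : B w = b := by have := sum w (by omega) le_rfl; omega
  have hBw1 : B (w + 1) = b + 1 := by
    have r1 := R.rB w (by omega) (by omega) (by omega) (by omega) (by omega)
    rw [show w + 2 - A (w + 1) = v by omega, show w + 2 - B w = v by omega] at r1
    have := sum (v - 1) (by omega) (by omega)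
    rw [show v - 1 + 1 = v by omega] at this
    omega
  let I : ℕ → Prop := fun m => ∃ x y, A m = x + r + 1 ∧ B m = y + r + 1 ∧ x + y + r = m ∧
    v ≤ x + 1 ∧ x ≤ y ∧ y ≤ w + 1 ∧ (w < m → x < y ∨ x = w + 1) ∧
    (x = w + 1 ∨ B y = A (x + 1) ∨ (B y = A (x + 1) + 1 ∧ A y + B y = y + r + 2))
  have step : ∀ m, w ≤ m → m < 2 * w + 2 + r → I m → I (m + 1) ∧
      (A (m + 1) = A m ∨ A (m + 1) = A m + 1) := by
    rintro m h1 h2 ⟨x, y, e1, e2, e3, e4, e5, e6, e6', e7⟩
    have r2 := R.rA m (by omega) (by omega) (by omega) (by omega) (by omega)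
    rw [show m + 1 - B m = x by omega, show m + 1 - A m = y by omega] at r2
    have sx := sum x (by omega) (by omega)
    rcases e7 with e7 | e7 | ⟨e7, e8⟩
    · omega
    · have hy : y ≤ w := by
        by_contra hc
        have h3 : y = w + 1 := by omega
        have := hAmono (x + 1) (w + 1) (by omega) (by omega) le_rfl
        rw [h3] at e7
        omega
      have sy := sum y (by omega) hy
      have r1 := R.rB m (by omega) (by omega) (by omega) (by omega) (by omega)
      rw [show m + 2 - A (m + 1) = y + 1 by omega, show m + 2 - B m = x + 1 by omega] at r1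
      refine ⟨⟨x, y + 1, by omega, by omega, by omega, by omega, by omega, by omega, by omega, ?_⟩,
        by omega⟩
      rcases Nat.lt_or_ge y w with h | h
      · have := sum (y + 1) (by omega) h
        have := slow (y + 1) (by omega) h
        omega
      · have h3 : y = w := by omega
        rw [h3] at e7 sy ⊢
        omega
    · have hxy : x < y := by
        rcases Nat.lt_or_ge w m with h | h
        · omega
        · have h3 : x + 1 = v := by omega
          have h4 : y = v - 1 := by omega
          rw [h3, h4] at e7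
          omega
      have r1 := R.rB m (by omega) (by omega) (by omega) (by omega) (by omega)
      rw [show m + 2 - A (m + 1) = y by omega, show m + 2 - B m = x + 1 by omega] at r1
      have hne : x + 1 < y ∨ x + 1 = w + 1 := by
        by_contra hc
        have h3 : x + 1 = y := by omega
        have := le y (by omega) (by omega)
        rw [h3] at e7
        omega
      refine ⟨⟨x + 1, y, by omega, by omega, by omega, by omega, by omega, by omega, by omega, ?_⟩,
        by omega⟩
      rcases Nat.lt_or_ge x w with h | h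
      · have := slow (x + 1) (by omega) h
        omega
      · omega
  have hI : ∀ m, w ≤ m → m ≤ 2 * w + 2 + r → I m := by
    intro m h1
    induction m, h1 using Nat.le_induction with
    | base =>
      intro _
      refine ⟨v - 1, v - 1, by omega, by omega, by omega, by omega, by omega, by omega, by omega,
        Or.inr (Or.inl ?_)⟩
      rw [show v - 1 + 1 = v by omega]; omega
    | succ m h1 ih =>
      intro h2
      exact (step m (by omega) (by omega) (ih (by omega))).1
  refine ⟨2 * w + 2 + r, ⟨by omega, by omega, by omega, aw, ?_, ?_, ?_, ?_⟩⟩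
  · obtain ⟨x, y, e1, e2, e3, e4, e5, e6, e7, -⟩ := hI (2 * w + 2 + r) (by omega) (by omega)
    omega
  · intro m h1 h2
    obtain ⟨x, y, e1, e2, e3, e4, e5, e6, e7, -⟩ := hI m (by omega) (by omega)
    omega
  · intro m h1 h2
    exact (step m h1 h2 (hI _ (by omega) (by omega))).2
  · intro m h1 h2
    obtain ⟨x, y, e1, e2, e3, e4, e5, e6, e7, -⟩ := hI m (by omega) (by omega)
    omega

end Pool.Agent.H.MP_f18a8d_nt
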