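import Pool.Agent.H.MP_f18a8d_nt.A

namespace Pool.Agent.H.MP_f18a8d_nt

def aa : ℕ → ℕ
  | 0 => 1
  | r + 1 => 4 * aa r - 1

theorem all_pos {A B : ℕ → ℕ} (R : Rec A B) (r : ℕ) : ∃ u v, Pos A B r (aa r) u v := by
  induction r with
  | zero =>
    have a1 := R.a1
    have b1 := R.b1
    have a2 : A 2 = 1 := by
      have := R.rA 1 le_rfl (by omega) (by omega) (by omega) (by omega)
      simpa [a1, b1] using this
    have b2 : B 2 = 2 := by
      have := R.rB 1 le_rfl (by simp [a2]) (by simp [a2]) (by omega) (by omega)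
      simpa [a1, b1, a2] using this
    have a3 : A 3 = 2 := by
      have := R.rA 2 (by omega) (by omega) (by omega) (by omega) (by omega)
      simpa [a1, b1, a2, b2] using this
    have b3 : B 3 = 2 := by
      have := R.rB 2 (by omega) (by simp [a3]) (by simp [a3]) (by omega) (by omega)
      simpa [a1, b1, a2, b2, a3] using this
    refine ⟨1, 3, ⟨by simp [aa], by simp [aa], by simp [aa], by simp [aa, a1], by simp [aa, a3],
      ?_, ?_, ?_⟩⟩
    · intro m h1 h2
      interval_cases m <;> omega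
    · intro m h1 h2
      interval_cases m <;> simp [a1, a2, a3]
    · intro m h1 h2
      interval_cases m; omega
  | succ r ih =>
    obtain ⟨u, v, P⟩ := ih
    obtain ⟨w, N⟩ := neg_of_pos R P
    obtain ⟨v', P'⟩ := pos_of_neg R N
    exact ⟨w, v', P'⟩

theorem bounds {A B : ℕ → ℕ} (R : Rec A B) (m : ℕ) (hm : 1 ≤ m) :
    1 ≤ A m ∧ A m ≤ m ∧ 1 ≤ B m ∧ B m ≤ m := by
  have key : ∀ r m, 1 ≤ m → m + r + 1 ≤ 2 * aa r → 1 ≤ A m ∧ A m ≤ m ∧ 1 ≤ B m ∧ B m ≤ m := by
    intro r
    induction r with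
    | zero =>
      intro m h1 h2
      have : m = 1 := by simp [aa] at h2; omega
      rw [this, R.a1, R.b1]; omega
    | succ r ih =>
      intro m h1 h2
      obtain ⟨u, v, P⟩ := all_pos R r
      obtain ⟨w, N⟩ := neg_of_pos R P
      have hu := P.hu; have hv := P.hv; have ha := P.ha; have hw := N.hw
      simp only [aa] at h2
      rcases Nat.lt_or_ge u m with h3 | h3
      · rcases Nat.lt_or_ge m v with h4 | h4
        · have := P.sum m h3.le h4.le
          have := P.lt m h3 h4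
          have := mono_of_slow (A := A) (u := u) (v := v) (fun j g1 g2 => by
            have := P.slow j g1 g2; omega) u m le_rfl h3.le h4.le
          have := P.au
          omega
        · have := N.sum m (by omega) (by omega)
          have := N.slow m h4 (by omega)
          have := N.le m h4 (by omega)
          have := N.ge m h4 (by omega)
          omega
      · exact ih m h1 (by omega)
  obtain ⟨u, v, P⟩ := all_pos R m
  have := P.ha
  exact key m m hm (by omega)

/-- halved sequence -/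
def hq : ℕ → ℕ
  | 0 => 1
  | 1 => 1
  | 2 => 1
  | n + 3 => hq (min (n + 2) (n + 4 - 2 * hq (n + 2))) + hq (min (n + 2) (n + 4 - 2 * hq (n + 1)))
      - (if n % 2 = 0 then 1 else 0)
decreasing_by all_goals omega

def AA (m : ℕ) : ℕ := hq (2 * m - 1)
def BB (m : ℕ) : ℕ := hq (2 * m)

theorem rec_hq : Rec AA BB := by
  refine ⟨by simp [AA, hq], by simp [BB, hq], ?_, ?_⟩
  · intro m h1 h2 h3 h4 h5
    unfold AA BB at *
    obtain ⟨k, rfl⟩ : ∃ k, m = k + 1 := ⟨m - 1, by omega⟩
    rw [show 2 * (k + 1 + 1) = (2 * k + 1) + 3 by omega, hq]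
    rw [show 2 * (k + 1 + 1) - 1 = 2 * k + 1 + 2 by omega] at h2 h3
    rw [show 2 * k + 1 + 3 - 1 = 2 * k + 1 + 2 by omega]
    rw [show 2 * (k + 1) = 2 * k + 1 + 1 by omega] at h4 h5 ⊢
    rw [if_neg (by omega), Nat.sub_zero]
    congr 2 <;> omega
  · intro m h1 h2 h3 h4 h5
    unfold AA BB at *
    obtain ⟨k, rfl⟩ : ∃ k, m = k + 1 := ⟨m - 1, by omega⟩
    rw [show 2 * (k + 1 + 1) - 1 = (2 * k) + 3 by omega, hq]
    rw [show 2 * (k + 1) - 1 = 2 * k + 1 by omega] at h2 h3 ⊢
    rw [show 2 * (k + 1) = 2 * k + 2 by omega] at h4 h5 ⊢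
    rw [if_pos (by omega)]
    congr 3 <;> omega

theorem hq_bound (n : ℕ) (hn : 1 ≤ n) : 1 ≤ hq n ∧ 2 * hq n ≤ n + 1 := by
  rcases Nat.even_or_odd' n with ⟨m, rfl | rfl⟩
  · have := bounds rec_hq m (by omega)
    unfold BB at this
    omega
  · have := bounds rec_hq (m + 1) (by omega)
    unfold AA at this
    rw [show 2 * (m + 1) - 1 = 2 * m + 1 by omega] at this
    omega

/-- the recurrence, for integer valued `Q` -/
def IsQ (Q : ℕ → ℤ) : Prop :=
  Q 1 = 1 ∧ Q 2 = 1 ∧ ∀ n : ℕ, 3 ≤ n →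
    Q n = Q ((n : ℤ) - Q (n - 1)).toNat + Q ((n : ℤ) - Q (n - 2)).toNat + (-1) ^ n

theorem hq_step (n : ℕ) : (2 * hq (n + 3) - 1 : ℤ) =
    (2 * hq (n + 4 - 2 * hq (n + 2)) - 1 : ℤ) + (2 * hq (n + 4 - 2 * hq (n + 1)) - 1 : ℤ)
      + (-1) ^ (n + 3) := by
  have h1 := hq_bound (n + 2) (by omega)
  have h2 := hq_bound (n + 1) (by omega)
  have h3 := hq_bound (n + 4 - 2 * hq (n + 2)) (by omega)
  rw [hq, min_eq_right (by omega), min_eq_right (by omega)]
  rcases Nat.even_or_odd' n with ⟨m, rfl | rfl⟩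
  · rw [if_pos (by omega), Odd.neg_one_pow ⟨m + 1, by omega⟩]
    omega
  · rw [if_neg (by omega), Even.neg_one_pow ⟨m + 2, by omega⟩]
    omega

theorem isQ_hq : IsQ (fun n => 2 * (hq n : ℤ) - 1) := by
  refine ⟨by simp [hq], by simp [hq], ?_⟩
  intro n hn
  obtain ⟨k, rfl⟩ : ∃ k, n = k + 3 := ⟨n - 3, by omega⟩
  have h1 := hq_bound (k + 2) (by omega)
  have h2 := hq_bound (k + 1) (by omega)
  simp only [show k + 3 - 1 = k + 2 by omega, show k + 3 - 2 = k + 1 by omega]
  rw [show (((k + 3 : ℕ) : ℤ) - (2 * (hq (k + 2) : ℤ) - 1)).toNat = k + 4 - 2 * hq (k + 2) by omega,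
    show (((k + 3 : ℕ) : ℤ) - (2 * (hq (k + 1) : ℤ) - 1)).toNat = k + 4 - 2 * hq (k + 1) by omega]
  exact hq_step k

theorem eq_hq {Q : ℕ → ℤ} (h : IsQ Q) (n : ℕ) (hn : 1 ≤ n) : Q n = 2 * (hq n : ℤ) - 1 := by
  induction n using Nat.strong_induction_on with
  | _ n ih =>
    rcases Nat.lt_or_ge n 3 with h3 | h3
    · interval_cases n
      · simp [h.1, hq]
      · simp [h.2.1, hq]
    · obtain ⟨k, rfl⟩ : ∃ k, n = k + 3 := ⟨n - 3, by omega⟩
      have h1 := hq_bound (k + 2) (by omega)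
      have h2 := hq_bound (k + 1) (by omega)
      rw [h.2.2 _ h3]
      simp only [show k + 3 - 1 = k + 2 by omega, show k + 3 - 2 = k + 1 by omega]
      rw [ih (k + 2) (by omega) (by omega), ih (k + 1) (by omega) (by omega),
        show (((k + 3 : ℕ) : ℤ) - (2 * (hq (k + 2) : ℤ) - 1)).toNat = k + 4 - 2 * hq (k + 2) by omega,
        show (((k + 3 : ℕ) : ℤ) - (2 * (hq (k + 1) : ℤ) - 1)).toNat = k + 4 - 2 * hq (k + 1) by omega,
        ih _ (by omega) (by omega), ih _ (by omega) (by omega)]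
      exact (hq_step k).symm

/-- `D k = (22...2)` in base four -/
def D : ℕ → ℕ
  | 0 => 0
  | k + 1 => 4 * D k + 2

theorem D_aa (k : ℕ) : D k + 1 = aa k := by
  induction k with
  | zero => simp [D, aa]
  | succ k ih => simp only [D, aa]; omega

theorem D_add (i j : ℕ) : D (i + j) = 4 ^ i * D j + D i := by
  induction i with
  | zero => simp [D]
  | succ i ih => rw [show i + 1 + j = (i + j) + 1 by omega, D, D, ih]; ring

theorem D_lt (i : ℕ) : D i < 4 ^ i := by
  induction i with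
  | zero => simp [D]
  | succ i ih => rw [D, pow_succ]; omega

theorem D_ge (i : ℕ) (hi : 2 ≤ i) : 4 * i ≤ D i := by
  induction i, hi using Nat.le_induction with
  | base => simp [D]
  | succ i hi ih => rw [D]; omega

theorem sign_vals {Q : ℕ → ℤ} (h : IsQ Q) (i j : ℕ) (hi : 2 ≤ i) (hij : i ≤ j) :
    Int.sign (Q (4 ^ i * D j + (D i + 1 - 4 * i) + 1) - Q (4 ^ i * D j + (D i + 1 - 4 * i)))
      = if i = j then 0 else 1 := by
  obtain ⟨r, hr⟩ : ∃ r, i + j = r + 1 := ⟨i + j - 1, by omega⟩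
  obtain ⟨u, v, P⟩ := all_pos rec_hq r
  have hu := P.hu; have hv := P.hv; have ha := P.ha
  have h1 := D_add i j
  have h2 := D_ge i hi
  have h3 := D_aa r
  rw [hr, D] at h1
  have h4 : 4 ^ i * D j + (D i + 1 - 4 * i) = 2 * (u + (j - i)) - 1 := by omega
  have h5 : 4 ^ i * D j + (D i + 1 - 4 * i) + 1 = 2 * (u + (j - i)) := by omega
  rw [h5, h4, eq_hq h _ (by omega), eq_hq h _ (by omega)]
  split_ifs with hc
  · have h6 := P.sum u le_rfl (by omega)
    have h7 := P.au
    rw [show j - i = 0 by omega, Nat.add_zero]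
    unfold AA BB at *
    rw [Int.sign_eq_zero_iff_zero]
    omega
  · have h6 := P.lt (u + (j - i)) (by omega) (by omega)
    unfold AA BB at *
    rw [Int.sign_eq_one_iff_pos]
    omega

theorem kernel_finite (S : Set (ℕ → ℤ)) (h : (Submodule.span ℤ S).FG) :
    ((fun (f : ℕ → ℤ) (n : ℕ) => (f n : ZMod 2)) '' S).Finite := by
  let φ : (ℕ → ℤ) →ₗ[ℤ] (ℕ → ZMod 2) :=
    { toFun := fun f n => (f n : ZMod 2)
      map_add' := by intro f g; funext n; simp
      map_smul' := by intro c f; funext n; simp }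
  have h1 : ((Submodule.span ℤ S).map φ).FG := h.map φ
  haveI : Module.Finite ℤ ((Submodule.span ℤ S).map φ) := Module.Finite.iff_fg.2 h1
  have h2 : Finite ((Submodule.span ℤ S).map φ) := by
    apply Module.finite_of_fg_torsion
    intro x
    refine ⟨⟨2, mem_nonZeroDivisors_of_ne_zero (by norm_num)⟩, ?_⟩
    apply Subtype.ext
    funext n
    show (2 : ℤ) • (x.1 n) = 0
    generalize x.1 n = z
    revert z
    decide
  have h3 : ((Submodule.span ℤ S).map φ : Set (ℕ → ZMod 2)).Finite := Set.toFinite _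
  refine h3.subset ?_
  rintro _ ⟨f, hf, rfl⟩
  exact ⟨f, Submodule.subset_span hf, rfl⟩

end Pool.Agent.H.MP_f18a8d_nt
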